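import Pool.Agent.PSV.StmtsS
import Pool.Agent.Helper38_MTN.AMP

/-!
# Squad PSV, row AMQ: amplification with `E` depending only on the cardinalities

Edit of Helper38_MTN/AMP.lean.
-/

set_option autoImplicit false

namespace Pool.Agent.PSV.H55

open Matrix Pool.Agent.MTN Pool.Agent.MTN.H38

theorem amq : AmqStmt := by
  intro n η k hη
  obtain ⟨J, hJ⟩ := exists_J (max (1 - η) 0) (le_max_right _ _)
    (max_lt (by linarith) one_pos) (n * (n * n)) k
  refine ⟨J * k, ?_⟩
  intro ι d _ _ _ _ hι hd K G A0 hA0 hdom hyp c hc
  have hcard : Fintype.card (ι × d × d) ≤ n * (n * n) := by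
    rw [Fintype.card_prod, Fintype.card_prod]
    exact Nat.mul_le_mul hι (Nat.mul_le_mul hd hd)
  by_contra hne
  push Not at hne
  -- the function of the relation
  set P : G → ℂ := TT K G k (fun x => c x.1 x.2) with hP
  have hPm : P ∈ Bsp K G k := by
    rw [← range_TT]
    exact LinearMap.mem_range_self _ _
  have hP0 : P ⟨A0, hA0⟩ = 0 := by
    rw [hP, TT_apply]
    exact hc
  have hPne : P ≠ 0 := by
    obtain ⟨A, hA, hA'⟩ := hne
    intro h
    apply hA'
    have := congrFun h ⟨A, hA⟩
    rw [hP, TT_apply] at this
    exact this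
  -- the evaluation at `A0`
  let ev : (G → ℂ) →ₗ[K] ℂ := LinearMap.proj (⟨A0, hA0⟩ : G)
  have hstep : ∀ e, e ≤ J * k → η * (Module.finrank K (Bsp K G e) : ℝ) ≤
      Module.finrank K (Submodule.map ev (Bsp K G e)) := by
    intro e he
    have h := hyp e he (LinearMap.ker (ev ∘ₗ TT K G e)) (LinearMap.ker (TT K G e)) ?_ ?_
    · have r1 := LinearMap.finrank_range_add_finrank_ker (TT K G e)
      have r2 := LinearMap.finrank_range_add_finrank_ker (ev ∘ₗ TT K G e)
      rw [range_TT] at r1
      rw [LinearMap.range_comp, range_TT] at r2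
      rw [Module.finrank_fintype_fun_eq_card] at r1 r2
      have r1' : (Module.finrank K (Bsp K G e) : ℝ) + Module.finrank K (LinearMap.ker (TT K G e)) =
          Fintype.card ((ι × Fin e → d) × (ι × Fin e → d)) := by exact_mod_cast r1
      have r2' : (Module.finrank K (Submodule.map ev (Bsp K G e)) : ℝ) +
          Module.finrank K (LinearMap.ker (ev ∘ₗ TT K G e)) =
          Fintype.card ((ι × Fin e → d) × (ι × Fin e → d)) := by exact_mod_cast r2
      rw [← r1'] at h
      have h3 : (Module.finrank K (Bsp K G e) : ℝ) + Module.finrank K (LinearMap.ker (TT K G e)) -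
        Module.finrank K (LinearMap.ker (TT K G e)) = Module.finrank K (Bsp K G e) := by ring
      rw [h3] at h
      linarith
    · intro c
      rw [LinearMap.mem_ker, LinearMap.comp_apply]
      change TT K G e c ⟨A0, hA0⟩ = 0 ↔ _
      rw [TT_apply]
    · intro c
      rw [LinearMap.mem_ker, funext_iff]
      constructor
      · intro h A hA
        have := h ⟨A, hA⟩
        rw [TT_apply] at this
        exact this
      · intro h A
        rw [TT_apply]
        exact h A A.2
  -- multiplication by `P`
  have hmul : ∀ e, Module.finrank K (Bsp K G e) + Module.finrank K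
      (Submodule.map ev (Bsp K G (e + k))) ≤ Module.finrank K (Bsp K G (e + k)) := by
    intro e
    have r := LinearMap.finrank_range_add_finrank_ker (ev.domRestrict (Bsp K G (e + k)))
    have hr : LinearMap.range (ev.domRestrict (Bsp K G (e + k))) =
        Submodule.map ev (Bsp K G (e + k)) := by
      ext z
      simp
    rw [hr] at r
    have hle : Module.finrank K (Bsp K G e) ≤
        Module.finrank K (LinearMap.ker (ev.domRestrict (Bsp K G (e + k)))) := by
      let φ : Bsp K G e →ₗ[K] LinearMap.ker (ev.domRestrict (Bsp K G (e + k))) :=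
        LinearMap.codRestrict _ (LinearMap.codRestrict (Bsp K G (e + k))
          ((LinearMap.mulRight K P).comp (Bsp K G e).subtype)
          (fun f => mul_mem K G f.2 hPm)) (by
            intro f
            rw [LinearMap.mem_ker]
            change (f : G → ℂ) ⟨A0, hA0⟩ * P ⟨A0, hA0⟩ = 0
            rw [hP0, mul_zero])
      refine LinearMap.finrank_le_finrank_of_injective (f := φ) ?_
      refine (injective_iff_map_eq_zero φ).mpr fun f hf => ?_
      have h1 : (f : G → ℂ) * P = 0 := by
        have := congrArg (fun z => ((z : LinearMap.ker (ev.domRestrict (Bsp K G (e + k)))) :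
          Bsp K G (e + k)).1) hf
        exact this
      exact Subtype.ext (no_zero K G hdom f.2 hPm h1 hPne)
    omega
  have hone : 1 ≤ Module.finrank K (Bsp K G 0) := by
    rw [Nat.one_le_iff_ne_zero]
    intro h0
    have h1 : Bsp K G 0 = ⊥ := Submodule.finrank_eq_zero.mp h0
    have h2 : mo G 0 (fun s => s.2.elim0, fun s => s.2.elim0) ∈ Bsp K G 0 :=
      Submodule.subset_span ⟨_, rfl⟩
    rw [h1, Submodule.mem_bot] at h2
    have h3 := congrFun h2 ⟨A0, hA0⟩
    simp [mo] at h3
  have hr : ∀ e, e + k ≤ J * k → (Module.finrank K (Bsp K G e) : ℝ) ≤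
      max (1 - η) 0 * Module.finrank K (Bsp K G (e + k)) := by
    intro e he
    have h1 := hstep (e + k) he
    have h2 : (Module.finrank K (Bsp K G e) : ℝ) + Module.finrank K
      (Submodule.map ev (Bsp K G (e + k))) ≤ Module.finrank K (Bsp K G (e + k)) := by
      exact_mod_cast hmul e
    have h3 : (Module.finrank K (Bsp K G e) : ℝ) ≤ (1 - η) * Module.finrank K (Bsp K G (e + k)) := by
      linarith
    refine h3.trans (mul_le_mul_of_nonneg_right (le_max_left _ _) (Nat.cast_nonneg _))
  have hit : ∀ j, j ≤ J → (1 : ℝ) ≤ max (1 - η) 0 ^ j * Module.finrank K (Bsp K G (j * k)) := by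
    intro j
    induction j with
    | zero =>
      intro _
      rw [pow_zero, one_mul, Nat.zero_mul]
      exact_mod_cast hone
    | succ j ih =>
      intro hj
      refine (ih (by omega)).trans ?_
      rw [pow_succ, mul_assoc]
      refine mul_le_mul_of_nonneg_left ?_ (by positivity)
      have := hr (j * k) (by
        calc j * k + k = (j + 1) * k := by ring
          _ ≤ J * k := Nat.mul_le_mul_right k hj)
      rw [Nat.add_mul, one_mul]
      exact this
  have hfin := hit J le_rfl
  have hle : (Module.finrank K (Bsp K G (J * k)) : ℝ) ≤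
      ((J * k + 1 : ℕ) : ℝ) ^ (n * (n * n)) := by
    exact_mod_cast (finrank_le K G (J * k)).trans (Nat.pow_le_pow_right (Nat.succ_pos _) hcard)
  have := mul_le_mul_of_nonneg_left hle (show (0 : ℝ) ≤ max (1 - η) 0 ^ J by positivity)
  linarith

end Pool.Agent.PSV.H55
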